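import Pool.Agent.Lib_helper13.Robin.W.CA
import Pool.Agent.Lib_helper13.Robin.W.MV
import Pool.Agent.Lib_helper13.Robin.W.NL
import Pool.Agent.Lib_helper13.Robin.W.PL

/-! Robin project, blocks MF and MS. -/

namespace Pool.Agent.Lib_helper59.Robin

open Set Filter Topology MeasureTheory Metric
open Pool.Agent.Lib_helper13.Robin
open scoped RealInnerProductSpace ContDiff

variable {d m : ℕ} (P : PD d m) {ι : Type} [Fintype ι] {T : ι → E d → ℝ}

theorem MF_sq_nonneg (x : E d) : 0 ≤ sq T x := Finset.sum_nonneg fun i _ => sq_nonneg _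

theorem MF_gsq_nonneg (x : E d) : 0 ≤ gsq T x := Finset.sum_nonneg fun i _ => sq_nonneg _

theorem MF_norm_tg (x : E d) : ‖tg T x‖ ≤ Real.sqrt (sq T x) * Real.sqrt (gsq T x) := by
  unfold tg
  calc ‖∑ i, T i x • gradient (T i) x‖ ≤ ∑ i, ‖T i x • gradient (T i) x‖ := norm_sum_le _ _
    _ = ∑ i, |T i x| * ‖gradient (T i) x‖ := by simp [norm_smul]
    _ ≤ Real.sqrt (∑ i, |T i x| ^ 2) * Real.sqrt (∑ i, ‖gradient (T i) x‖ ^ 2) :=
        Real.sum_mul_le_sqrt_mul_sqrt _ _ _
    _ = Real.sqrt (sq T x) * Real.sqrt (gsq T x) := by simp [Pool.Agent.Lib_helper13.Robin.sq, gsq]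

theorem MF_grad_sq {x : E d} (h : ∀ i, DifferentiableAt ℝ (T i) x) :
    gradient (sq T) x = (2 : ℝ) • tg T x := by
  have h1 : HasFDerivAt (sq T) (∑ i, (2 * T i x) • fderiv ℝ (T i) x) x := by
    have h2 : ∀ i ∈ (Finset.univ : Finset ι), HasFDerivAt (fun y => T i y ^ 2)
        ((2 * T i x) • fderiv ℝ (T i) x) x := by
      intro i _
      have := (h i).hasFDerivAt.pow 2
      simpa using this
    exact HasFDerivAt.fun_sum h2
  unfold gradient tg
  rw [h1.fderiv, map_sum, Finset.smul_sum]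
  refine Finset.sum_congr rfl fun i _ => ?_
  rw [map_smul, smul_smul]
  rfl

theorem MF_grad_G {δ : ℝ} (hδ : 0 < δ) {x : E d} (h : ∀ i, DifferentiableAt ℝ (T i) x) :
    DifferentiableAt ℝ (G δ T) x ∧ gradient (G δ T) x = gG δ T x := by
  have hd : DifferentiableAt ℝ (sq T) x := by
    unfold Pool.Agent.Lib_helper13.Robin.sq
    exact DifferentiableAt.fun_sum fun i _ => (h i).pow 2
  have hpos : δ ^ 2 + sq T x ≠ 0 := by
    have := MF_sq_nonneg (T := T) x
    positivity
  have h1 : HasFDerivAt (G δ T) ((1 / (2 * Real.sqrt (δ ^ 2 + sq T x))) • fderiv ℝ (sq T) x) x := by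
    have h2 : HasFDerivAt (fun y => δ ^ 2 + sq T y) (fderiv ℝ (sq T) x) x :=
      hd.hasFDerivAt.const_add _
    exact h2.sqrt hpos
  refine ⟨h1.differentiableAt, ?_⟩
  have h3 := MF_grad_sq h
  unfold gradient at h3 ⊢
  rw [h1.fderiv, map_smul, h3, gG, smul_smul]
  congr 1
  unfold G
  field_simp

theorem MF_G_pos {δ : ℝ} (hδ : 0 < δ) (x : E d) : 0 < G δ T x := by
  unfold G
  apply Real.sqrt_pos.mpr
  have := MF_sq_nonneg (T := T) x
  positivity

theorem MF_sqrt_le_G (δ : ℝ) (x : E d) : Real.sqrt (sq T x) ≤ G δ T x := by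
  unfold G
  apply Real.sqrt_le_sqrt
  nlinarith [sq_nonneg δ]

theorem MF_norm_gG {δ : ℝ} (hδ : 0 < δ) (x : E d) : ‖gG δ T x‖ ≤ Real.sqrt (gsq T x) := by
  unfold gG
  rw [norm_smul, norm_inv, Real.norm_of_nonneg (MF_G_pos hδ x).le, inv_mul_le_iff₀ (MF_G_pos hδ x)]
  refine (MF_norm_tg x).trans ?_
  exact mul_le_mul_of_nonneg_right (MF_sqrt_le_G δ x) (Real.sqrt_nonneg _)

theorem MF_eG_nonneg {δ : ℝ} (hδ : 0 < δ) (x : E d) : 0 ≤ eG δ T x := by
  unfold eG
  apply div_nonneg _ (MF_G_pos hδ x).le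
  have h1 := MF_norm_gG (T := T) hδ x
  have h2 : ‖gG δ T x‖ ^ 2 ≤ Real.sqrt (gsq T x) ^ 2 := by
    apply pow_le_pow_left₀ (norm_nonneg _) h1
  rw [Real.sq_sqrt (MF_gsq_nonneg x)] at h2
  linarith

theorem MF_cont_grad {U : Set (E d)} (hU : IsOpen U) {f : E d → ℝ} (hf : ContDiffOn ℝ 1 f U) :
    ContinuousOn (gradient f) U := by
  have h1 := hf.continuousOn_fderiv_of_isOpen hU le_rfl
  exact (InnerProductSpace.toDual ℝ (E d)).symm.continuous.comp_continuousOn h1

theorem MF_supp {ψ : E d → ℝ} {V : Set (E d)} (hs : tsupport ψ ⊆ V) {x : E d} (hx : x ∉ V) :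
    ψ x = 0 ∧ gradient ψ x = 0 := by
  have hx' : x ∉ tsupport ψ := fun h => hx (hs h)
  have h0 : ψ =ᶠ[𝓝 x] fun _ => 0 := notMem_tsupport_iff_eventuallyEq.mp hx'
  refine ⟨h0.eq_of_nhds, ?_⟩
  unfold gradient
  rw [h0.fderiv_eq]
  simp

theorem MF_int_mul {p : E d} {r : ℝ} {F : E d → ℝ} (hF : IntegrableOn F (P.Om ∩ ball p r))
    {φ : E d → ℝ} (hφ : Continuous φ) (hb : ∀ x, |φ x| ≤ 1) (h0 : ∀ x, x ∉ ball p r → φ x = 0) :
    IntegrableOn (fun x => F x * φ x) P.Om := by
  have h1 : IntegrableOn (fun x => F x * φ x) (P.Om ∩ ball p r) := by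
    have := Integrable.bdd_mul (c := 1) hF (hφ.aestronglyMeasurable)
      (Eventually.of_forall fun x => by simpa using hb x)
    exact this.congr (Eventually.of_forall fun x => mul_comm _ _)
  refine h1.of_forall_sdiff_eq_zero P.measurableSet_Om ?_
  rintro x ⟨hx, hx'⟩
  have : x ∉ ball p r := fun h => hx' ⟨hx, h⟩
  simp [h0 x this]

theorem MF_th_cont (p : E d) (t : ℝ) : Continuous (fun x : E d => th (t⁻¹ • (x - p))) := by
  unfold th; fun_prop

theorem MF_th_nonneg (z : E d) : 0 ≤ th z := le_max_right _ _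

theorem MF_th_le (z : E d) : th z ≤ 1 := by
  unfold th
  apply max_le _ zero_le_one
  nlinarith [sq_nonneg ‖z‖]

theorem MF_Th_nonneg (z : E d) : 0 ≤ Th z := by unfold Th; positivity

theorem MF_th_zero {p : E d} {t r : ℝ} (ht : 0 < t) (htr : t ≤ r) {x : E d} (hx : x ∉ ball p r) :
    th (t⁻¹ • (x - p)) = 0 := by
  unfold th
  apply max_eq_right
  rw [mem_ball, dist_eq_norm, not_lt] at hx
  rw [norm_smul, norm_inv, Real.norm_of_nonneg ht.le]
  have h1 : 1 ≤ t⁻¹ * ‖x - p‖ := by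
    rw [le_inv_mul_iff₀ ht]; linarith
  nlinarith

/-- the pointwise limit -/
theorem MF_lim (s : ℝ) (hs : 0 ≤ s) :
    Tendsto (fun n : ℕ => 2 * ((n : ℝ) + 1) * (Real.sqrt (((n : ℝ) + 1) ^ 2 + s) - ((n : ℝ) + 1)))
      atTop (𝓝 s) := by
  have h1 : ∀ n : ℕ, 2 * ((n : ℝ) + 1) * (Real.sqrt (((n : ℝ) + 1) ^ 2 + s) - ((n : ℝ) + 1)) =
      2 * s / (Real.sqrt (1 + s * ((n : ℝ) + 1)⁻¹ ^ 2) + 1) := by
    intro n
    have hn : (0 : ℝ) < (n : ℝ) + 1 := by positivity
    set δ := (n : ℝ) + 1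
    have e1 : δ ^ 2 + s = δ ^ 2 * (1 + s * δ⁻¹ ^ 2) := by field_simp
    have e2 : Real.sqrt (δ ^ 2 + s) = δ * Real.sqrt (1 + s * δ⁻¹ ^ 2) := by
      rw [e1, Real.sqrt_mul (by positivity), Real.sqrt_sq hn.le]
    have h0 : 0 ≤ 1 + s * δ⁻¹ ^ 2 := by positivity
    have h2 : Real.sqrt (1 + s * δ⁻¹ ^ 2) ^ 2 = 1 + s * δ⁻¹ ^ 2 := Real.sq_sqrt h0
    rw [e2, eq_div_iff (by positivity)]
    have h3 : 2 * δ * (δ * Real.sqrt (1 + s * δ⁻¹ ^ 2) - δ) * (Real.sqrt (1 + s * δ⁻¹ ^ 2) + 1) =
        2 * δ ^ 2 * (Real.sqrt (1 + s * δ⁻¹ ^ 2) ^ 2 - 1) := by ring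
    rw [h3, h2]
    field_simp
    ring
  simp_rw [h1]
  have h2 : Tendsto (fun n : ℕ => ((n : ℝ) + 1)⁻¹) atTop (𝓝 0) := by
    have := tendsto_one_div_add_atTop_nhds_zero_nat (𝕜 := ℝ)
    simpa using this
  have h3 : Tendsto (fun n : ℕ => 1 + s * ((n : ℝ) + 1)⁻¹ ^ 2) atTop (𝓝 (1 + s * 0 ^ 2)) :=
    ((h2.pow 2).const_mul s).const_add 1
  have h4 := (Real.continuous_sqrt.tendsto _).comp h3
  have h5 : Tendsto (fun n : ℕ => 2 * s / (Real.sqrt (1 + s * ((n : ℝ) + 1)⁻¹ ^ 2) + 1)) atTop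
      (𝓝 (2 * s / (Real.sqrt (1 + s * 0 ^ 2) + 1))) := by
    apply Tendsto.div tendsto_const_nhds (h4.add_const 1)
    positivity
  convert h5 using 2
  simp
  ring

theorem MF_bound {δ s : ℝ} (hδ : 0 < δ) (hs : 0 ≤ s) :
    0 ≤ 2 * δ * (Real.sqrt (δ ^ 2 + s) - δ) ∧ 2 * δ * (Real.sqrt (δ ^ 2 + s) - δ) ≤ s := by
  have h1 : δ ≤ Real.sqrt (δ ^ 2 + s) := Real.le_sqrt_of_sq_le (by linarith)
  have h2 : Real.sqrt (δ ^ 2 + s) ^ 2 = δ ^ 2 + s := Real.sq_sqrt (by positivity)
  constructor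
  · have : 0 ≤ Real.sqrt (δ ^ 2 + s) - δ := by linarith
    positivity
  · nlinarith [sq_nonneg (Real.sqrt (δ ^ 2 + s) - δ)]

/-- **MF.** monotonicity for `|T|²` from the flux identity (`δ → ∞`) -/
theorem mm_mono_of_flux {p : E d} {R : ℝ} (hC : P.Con p R)
    (hs : ∀ i, ContDiffOn ℝ ∞ (T i) (P.Om ∩ ball p R))
    (h1 : ∀ K ⊆ ball p R, IsCompact K → IntegrableOn (sq T) (P.Om ∩ K))
    (h2 : ∀ K ⊆ ball p R, IsCompact K → IntegrableOn (fun x => Real.sqrt (gsq T x)) (P.Om ∩ K))
    (h3 : ∀ δ > 0, ∀ K ⊆ ball p R, IsCompact K → IntegrableOn (eG δ T) (P.Om ∩ K))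
    (h4 : ∀ δ > 0, ∀ ψ : E d → ℝ, ContDiff ℝ 1 ψ → HasCompactSupport ψ →
      tsupport ψ ⊆ ball p R →
      ∫ x in P.Om, ⟪gG δ T x, gradient ψ x⟫ = - ∫ x in P.Om, ψ x * eG δ T x)
    {t1 t2 : ℝ} (ht1 : 0 < t1) (ht : t1 ≤ t2) (ht2 : t2 < R) :
    mm P (sq T) p t1 ≤ mm P (sq T) p t2 := by
  have hopen : IsOpen (P.Om ∩ ball p R) := P.isOpen_Om.inter isOpen_ball
  have hdiff : ∀ x ∈ P.Om ∩ ball p R, ∀ i, DifferentiableAt ℝ (T i) x := fun x hx i =>
    ((hs i).differentiableOn (by simp)).differentiableAt (hopen.mem_nhds hx)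
  have hKsub : ∀ r < R, closedBall p r ⊆ ball p R := fun r hr => closedBall_subset_ball hr
  have hmono : ∀ r : ℝ, P.Om ∩ ball p r ⊆ P.Om ∩ closedBall p r := fun r =>
    inter_subset_inter_right _ ball_subset_closedBall
  have hsub : ∀ r < R, P.Om ∩ ball p r ⊆ P.Om ∩ ball p R := fun r hr =>
    inter_subset_inter_right _ (ball_subset_ball hr.le)
  -- the approximating functions
  have key : ∀ δ > 0, mm P (fun x => 2 * δ * (G δ T x - δ)) p t1 ≤
      mm P (fun x => 2 * δ * (G δ T x - δ)) p t2 := by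
    intro δ hδ
    set Q : E d → ℝ := fun x => 2 * δ * (G δ T x - δ) with hQdef
    have hGc : ContDiffOn ℝ 1 (G δ T) (P.Om ∩ ball p R) := by
      have h5 : ContDiffOn ℝ 1 (fun x => δ ^ 2 + sq T x) (P.Om ∩ ball p R) := by
        apply contDiffOn_const.add
        unfold Pool.Agent.Lib_helper13.Robin.sq
        exact ContDiffOn.sum fun i _ => ((hs i).of_le (by exact_mod_cast le_top)).pow 2
      have h6 := h5.sqrt (fun x _ => by
        have := MF_sq_nonneg (T := T) x
        positivity)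
      exact h6
    have hQc : ContDiffOn ℝ 1 Q (P.Om ∩ ball p R) :=
      contDiffOn_const.mul (hGc.sub contDiffOn_const)
    have hQg : ∀ x ∈ P.Om ∩ ball p R, gradient Q x = (2 * δ) • gG δ T x := by
      intro x hx
      obtain ⟨e1, e2⟩ := MF_grad_G hδ (hdiff x hx)
      have e3 : HasFDerivAt Q ((2 * δ) • fderiv ℝ (G δ T) x) x :=
        (e1.hasFDerivAt.sub_const δ).const_mul (2 * δ)
      unfold gradient at e2 ⊢
      rw [e3.fderiv, map_smul, e2]
    have hmv := mv P hC Q (fun x => 2 * δ * eG δ T x) hQc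
      (fun r hr => by
        have hb := (h1 _ (hKsub r hr) (isCompact_closedBall p r)).mono_set (hmono r)
        refine Integrable.mono' hb ?_ ?_
        · exact (hQc.continuousOn.mono (hsub r hr)).aestronglyMeasurable
            (P.isOpen_Om.inter isOpen_ball).measurableSet
        · refine Eventually.of_forall fun x => ?_
          have := MF_bound hδ (MF_sq_nonneg (T := T) x)
          change |2 * δ * (Real.sqrt (δ ^ 2 + _) - δ)| ≤ _
          rw [abs_of_nonneg this.1]
          exact this.2)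
      (fun r hr => by
        have hb := ((h2 _ (hKsub r hr) (isCompact_closedBall p r)).mono_set (hmono r)).const_mul
          (2 * δ)
        refine Integrable.mono' hb ?_ ?_
        · exact ((MF_cont_grad hopen hQc).mono (hsub r hr)).norm.aestronglyMeasurable
            (P.isOpen_Om.inter isOpen_ball).measurableSet
        · refine (ae_restrict_mem (P.isOpen_Om.inter isOpen_ball).measurableSet).mono fun x hx => ?_
          rw [norm_norm, hQg x (hsub r hr hx), norm_smul, Real.norm_of_nonneg (by positivity)]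
          exact mul_le_mul_of_nonneg_left (MF_norm_gG hδ x) (by positivity))
      (fun r hr => ((h3 δ hδ _ (hKsub r hr) (isCompact_closedBall p r)).mono_set
        (hmono r)).const_mul (2 * δ))
      (fun ψ hψ hc hsψ => by
        have e1 : ∫ x in P.Om, ⟪gradient Q x, gradient ψ x⟫ =
            ∫ x in P.Om, (2 * δ) * ⟪gG δ T x, gradient ψ x⟫ := by
          apply setIntegral_congr_fun P.measurableSet_Om
          intro x hx
          simp only
          by_cases hxb : x ∈ ball p R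
          · rw [hQg x ⟨hx, hxb⟩, inner_smul_left]; simp
          · rw [(MF_supp hsψ hxb).2]; simp
        rw [e1, integral_const_mul, h4 δ hδ ψ hψ hc hsψ, mul_neg, ← integral_const_mul]
        congr 1
        apply integral_congr_ae
        exact Eventually.of_forall fun x => by simp only; ring)
      ht1 ht ht2
    have hnn : 0 ≤ ∫ s in t1..t2, s ^ (1 - (d : ℤ)) *
        ∫ x in P.Om, (2 * δ * eG δ T x) * Th (s⁻¹ • (x - p)) := by
      apply intervalIntegral.integral_nonneg ht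
      intro s hs'
      apply mul_nonneg (zpow_nonneg (by linarith [hs'.1]) _)
      apply integral_nonneg
      intro x
      have := MF_eG_nonneg (T := T) hδ x
      have := MF_Th_nonneg (s⁻¹ • (x - p))
      positivity
    have := hmv.2
    linarith
  -- the limit
  have hlim : ∀ t : ℝ, 0 < t → t < R → Tendsto (fun n : ℕ =>
      mm P (fun x => 2 * ((n : ℝ) + 1) * (G ((n : ℝ) + 1) T x - ((n : ℝ) + 1))) p t) atTop
      (𝓝 (mm P (sq T) p t)) := by
    intro t ht0 htR
    unfold mm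
    apply Tendsto.const_mul
    obtain ⟨r, htr, hrR⟩ := exists_between htR
    have hbd : IntegrableOn (fun x => sq T x * th (t⁻¹ • (x - p))) P.Om :=
      MF_int_mul P (r := r) ((h1 _ (hKsub r hrR) (isCompact_closedBall p r)).mono_set (hmono r))
        (MF_th_cont p t) (fun x => by
          rw [abs_of_nonneg (MF_th_nonneg _)]; exact MF_th_le _)
        (fun x hx => MF_th_zero ht0 htr.le hx)
    apply tendsto_integral_of_dominated_convergence _ _ hbd
    · intro n
      refine Eventually.of_forall fun x => ?_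
      have hn : (0 : ℝ) < (n : ℝ) + 1 := by positivity
      have := MF_bound hn (MF_sq_nonneg (T := T) x)
      change |2 * ((n : ℝ) + 1) * (Real.sqrt (((n : ℝ) + 1) ^ 2 + _) - ((n : ℝ) + 1)) * th _| ≤ _
      rw [abs_of_nonneg (mul_nonneg this.1 (MF_th_nonneg _))]
      exact mul_le_mul_of_nonneg_right this.2 (MF_th_nonneg _)
    · refine Eventually.of_forall fun x => ?_
      apply Tendsto.mul_const
      exact MF_lim _ (MF_sq_nonneg x)
    · intro n
      have hn : (0 : ℝ) < (n : ℝ) + 1 := by positivity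
      -- measurability on Om
      have hGc : ContinuousOn (G ((n : ℝ) + 1) T) (P.Om ∩ ball p R) := by
        unfold G
        apply ContinuousOn.sqrt
        apply continuousOn_const.add
        unfold Pool.Agent.Lib_helper13.Robin.sq
        exact continuousOn_finsetSum _ fun i _ => (hs i).continuousOn.pow 2
      have hm1 : AEStronglyMeasurable (fun x =>
          2 * ((n : ℝ) + 1) * (G ((n : ℝ) + 1) T x - ((n : ℝ) + 1)) * th (t⁻¹ • (x - p)))
          (volume.restrict (P.Om ∩ ball p R)) := by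
        apply ContinuousOn.aestronglyMeasurable _ hopen.measurableSet
        exact (continuousOn_const.mul (hGc.sub continuousOn_const)).mul
          (MF_th_cont p t).continuousOn
      have hm2 : AEStronglyMeasurable ((ball p R).indicator (fun x =>
          2 * ((n : ℝ) + 1) * (G ((n : ℝ) + 1) T x - ((n : ℝ) + 1)) * th (t⁻¹ • (x - p))))
          (volume.restrict P.Om) := by
        rw [aestronglyMeasurable_indicator_iff isOpen_ball.measurableSet,
          Measure.restrict_restrict isOpen_ball.measurableSet, inter_comm]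
        exact hm1
      refine hm2.congr (Eventually.of_forall fun x => ?_)
      by_cases hx : x ∈ ball p R
      · simp [indicator_of_mem hx]
      · rw [indicator_of_notMem hx]
        simp only
        rw [MF_th_zero ht0 htR.le hx, mul_zero]
  exact le_of_tendsto_of_tendsto' (hlim t1 ht1 (ht.trans_lt ht2)) (hlim t2 (ht1.trans_le ht) ht2)
    (fun n => key _ (by positivity))

/-- **MS.** -/
theorem mm_sq {p : E d} {R : ℝ} (hC : P.Con p R) (h : PP P T (ball p R))
    {t1 t2 : ℝ} (h1 : 0 < t1) (h12 : t1 ≤ t2) (h2 : t2 < R) :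
    IntervalIntegrable (fun s => s ^ (1 - (d : ℤ)) *
      ∫ x in P.Om, (2 * gsq T x) * Th (s⁻¹ • (x - p))) volume t1 t2 ∧
    mm P (sq T) p t2 - mm P (sq T) p t1 =
      ∫ s in t1..t2, s ^ (1 - (d : ℤ)) * ∫ x in P.Om, (2 * gsq T x) * Th (s⁻¹ • (x - p)) := by
  have hopen : IsOpen (P.Om ∩ ball p R) := P.isOpen_Om.inter isOpen_ball
  have hdiff : ∀ x ∈ P.Om ∩ ball p R, ∀ i, DifferentiableAt ℝ (T i) x := fun x hx i =>
    ((h.sm i).differentiableOn (by simp)).differentiableAt (hopen.mem_nhds hx)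
  have hKsub : ∀ r < R, closedBall p r ⊆ ball p R := fun r hr => closedBall_subset_ball hr
  have hmono : ∀ r : ℝ, P.Om ∩ ball p r ⊆ P.Om ∩ closedBall p r := fun r =>
    inter_subset_inter_right _ ball_subset_closedBall
  have hsub : ∀ r < R, P.Om ∩ ball p r ⊆ P.Om ∩ ball p R := fun r hr =>
    inter_subset_inter_right _ (ball_subset_ball hr.le)
  have hQc : ContDiffOn ℝ 1 (sq T) (P.Om ∩ ball p R) := by
    unfold Pool.Agent.Lib_helper13.Robin.sq
    exact ContDiffOn.sum fun i _ => ((h.sm i).of_le (by exact_mod_cast le_top)).pow 2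
  have hQg : ∀ x ∈ P.Om ∩ ball p R, gradient (sq T) x = (2 : ℝ) • tg T x := fun x hx =>
    MF_grad_sq (hdiff x hx)
  apply mv P hC (sq T) (fun x => 2 * gsq T x) hQc
  · exact fun r hr => (h.int1 _ (hKsub r hr) (isCompact_closedBall p r)).mono_set (hmono r)
  · intro r hr
    have hb := ((h.int1 _ (hKsub r hr) (isCompact_closedBall p r)).mono_set (hmono r)).add
      ((h.int2 _ (hKsub r hr) (isCompact_closedBall p r)).mono_set (hmono r))
    refine Integrable.mono' hb ?_ ?_
    · exact ((MF_cont_grad hopen hQc).mono (hsub r hr)).norm.aestronglyMeasurable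
        (P.isOpen_Om.inter isOpen_ball).measurableSet
    · refine (ae_restrict_mem (P.isOpen_Om.inter isOpen_ball).measurableSet).mono fun x hx => ?_
      rw [norm_norm, hQg x (hsub r hr hx), norm_smul, Real.norm_of_nonneg (by norm_num)]
      have e1 := MF_norm_tg (T := T) x
      have e2 := Real.sq_sqrt (MF_sq_nonneg (T := T) x)
      have e3 := Real.sq_sqrt (MF_gsq_nonneg (T := T) x)
      simp only [Pi.add_apply]
      nlinarith [sq_nonneg (Real.sqrt (sq T x) - Real.sqrt (gsq T x))]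
  · exact fun r hr => ((h.int2 _ (hKsub r hr) (isCompact_closedBall p r)).mono_set
      (hmono r)).const_mul 2
  · intro ψ hψ hc hsψ
    have e1 : ∫ x in P.Om, ⟪gradient (sq T) x, gradient ψ x⟫ =
        ∫ x in P.Om, 2 * ⟪tg T x, gradient ψ x⟫ := by
      apply setIntegral_congr_fun P.measurableSet_Om
      intro x hx
      simp only
      by_cases hxb : x ∈ ball p R
      · rw [hQg x ⟨hx, hxb⟩, inner_smul_left]; simp
      · rw [(MF_supp hsψ hxb).2]; simp
    rw [e1, integral_const_mul, pp_I P isOpen_ball h hψ hc hsψ, mul_neg, ← integral_const_mul]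
    congr 1
    apply integral_congr_ae
    exact Eventually.of_forall fun x => by simp only; ring
  · exact h1
  · exact h12
  · exact h2

end Pool.Agent.Lib_helper59.Robin
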