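import Pool.Agent.Lib_helper13.Robin.Geo

/-! Robin project, block QL: quasi-concavity of the limit. -/

namespace Pool.Agent.Lib_helper59.Robin

open Set Filter Topology MeasureTheory Metric
open Pool.Agent.Lib_helper13.Robin
open scoped RealInnerProductSpace ContDiff

variable {d m : ℕ} (P : PD d m)

/-- **QL.** quasi-concavity of the limit -/
theorem qc_limit (v : E d → ℝ) (hv : ContinuousOn v P.Om) (f : ℕ → E d → ℝ)
    (hf : ∀ n t, Convex ℝ {x | x ∈ P.Om ∧ t ≤ f n x})
    (hlim : ∀ᵐ x ∂(volume.restrict P.Om), Tendsto (fun n => f n x) atTop (𝓝 (v x))) :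
    QC P v := by
  intro x hx y hy t ht
  by_contra hlt
  push Not at hlt
  have hOm := P.isOpen_Om
  have hz : (1 - t) • x + t • y ∈ P.Om :=
    P.convex_Om hx hy (by linarith [ht.2]) ht.1 (by ring)
  set z := (1 - t) • x + t • y with hzdef
  have hae : ∀ᵐ w ∂(volume : Measure (E d)), w ∈ P.Om →
      Tendsto (fun n => f n w) atTop (𝓝 (v w)) := by
    rwa [ae_restrict_iff' hOm.measurableSet] at hlim
  have htr : ∀ a : E d, ∀ᵐ h ∂(volume : Measure (E d)), a + h ∈ P.Om →
      Tendsto (fun n => f n (a + h)) atTop (𝓝 (v (a + h))) := by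
    intro a
    exact (measurePreserving_add_left (volume : Measure (E d)) a).quasiMeasurePreserving.ae hae
  -- the open condition
  have hcx : ∀ a ∈ P.Om, ContinuousAt (fun h : E d => v (a + h)) 0 := by
    intro a ha
    have h1 : ContinuousAt v (a + 0) := by
      rw [add_zero]; exact hv.continuousAt (hOm.mem_nhds ha)
    exact ContinuousAt.comp (f := fun h : E d => a + h) h1 (by fun_prop)
  have hox : ∀ a ∈ P.Om, ∀ᶠ h in 𝓝 (0 : E d), a + h ∈ P.Om := by
    intro a ha
    have h1 : ContinuousAt (fun h : E d => a + h) 0 := by fun_prop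
    apply h1.preimage_mem_nhds
    simpa using hOm.mem_nhds ha
  have hev : ∀ᶠ h in 𝓝 (0 : E d), (x + h ∈ P.Om ∧ y + h ∈ P.Om ∧ z + h ∈ P.Om) ∧
      v (z + h) < min (v (x + h)) (v (y + h)) := by
    refine ((hox x hx).and ((hox y hy).and (hox z hz))).and ?_
    apply (hcx z hz).eventually_lt ((hcx x hx).min (hcx y hy))
    simpa using hlt
  obtain ⟨ε, hε, hball⟩ := Metric.eventually_nhds_iff_ball.mp hev
  have hpos : 0 < volume (ball (0 : E d) ε) := Metric.measure_ball_pos _ _ hε
  have hex : ∃ h ∈ ball (0 : E d) ε, (x + h ∈ P.Om →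
      Tendsto (fun n => f n (x + h)) atTop (𝓝 (v (x + h)))) ∧ (y + h ∈ P.Om →
      Tendsto (fun n => f n (y + h)) atTop (𝓝 (v (y + h)))) ∧ (z + h ∈ P.Om →
      Tendsto (fun n => f n (z + h)) atTop (𝓝 (v (z + h)))) := by
    by_contra hno
    push Not at hno
    have hall := (htr x).and ((htr y).and (htr z))
    have h0 : volume (ball (0 : E d) ε) = 0 := by
      apply measure_mono_null _ (ae_iff.mp hall)
      intro h hh
      simp only [mem_setOf_eq]
      intro hc
      obtain ⟨hc1, hc2, hc3⟩ := hc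
      obtain ⟨_, hn⟩ := hno h hh hc1 hc2
      exact hn (hc3 (hball h hh).1.2.2)
    exact hpos.ne' h0
  obtain ⟨h, hh, hx', hy', hz'⟩ := hex
  obtain ⟨⟨m1, m2, m3⟩, hlt'⟩ := hball h hh
  have hle : min (v (x + h)) (v (y + h)) ≤ v (z + h) := by
    refine le_of_tendsto_of_tendsto' ((hx' m1).min (hy' m2)) (hz' m3) (fun n => ?_)
    have hc := hf n (min (f n (x + h)) (f n (y + h)))
    have := hc ⟨m1, min_le_left _ _⟩ ⟨m2, min_le_right _ _⟩ (show 0 ≤ 1 - t by linarith [ht.2])
      ht.1 (by ring)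
    have e : (1 - t) • (x + h) + t • (y + h) = z + h := by
      rw [hzdef]; simp only [smul_add, sub_smul, one_smul]; abel
    rw [e] at this
    exact this.2
  exact absurd hlt' (not_lt.mpr hle)

end Pool.Agent.Lib_helper59.Robin
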