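import Mathlib

/-! Robin project, block XO: three ODE lemmas. -/

namespace Pool.Agent.Lib_helper59.Robin

open Set Filter Topology

theorem XO_mono {r : ℝ} {f f' : ℝ → ℝ} (h : ∀ ρ ∈ Ioo 0 r, HasDerivAt f (f' ρ) ρ)
    (h0 : ∀ ρ ∈ Ioo 0 r, 0 ≤ f' ρ) : MonotoneOn f (Ioo 0 r) := by
  apply monotoneOn_of_deriv_nonneg (convex_Ioo 0 r)
  · intro x hx; exact (h x hx).continuousAt.continuousWithinAt
  · rw [interior_Ioo]; intro x hx; exact (h x hx).differentiableAt.differentiableWithinAt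
  · rw [interior_Ioo]; intro x hx; rw [(h x hx).deriv]; exact h0 x hx

theorem XO_flux {r K σ : ℝ} (hK : 0 ≤ K) (hσ : 0 < σ) (q q' : ℝ → ℝ)
    (h : ∀ ρ ∈ Ioo 0 r, HasDerivAt q (q' ρ) ρ) (hb : ∀ ρ ∈ Ioo 0 r, q' ρ ≤ K * ρ ^ (σ - 1))
    (hc : ∀ c > 0, ∀ ρ0 ∈ Ioo 0 r, ¬ (∀ ρ ∈ Ioo 0 ρ0, c ≤ q ρ)) :
    ∀ ρ ∈ Ioo 0 r, q ρ ≤ K / σ * ρ ^ σ := by
  intro ρ0 hρ0
  by_contra hlt
  push Not at hlt
  apply hc (q ρ0 - K / σ * ρ0 ^ σ) (by linarith) ρ0 hρ0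
  intro ρ hρ
  have hm : MonotoneOn (fun ρ => K / σ * ρ ^ σ - q ρ) (Ioo 0 r) := by
    apply XO_mono (f' := fun ρ => K / σ * (σ * ρ ^ (σ - 1)) - q' ρ)
    · intro x hx
      exact ((Real.hasDerivAt_rpow_const (Or.inl hx.1.ne')).const_mul _).sub (h x hx)
    · intro x hx
      have := hb x hx
      have e : K / σ * (σ * x ^ (σ - 1)) = K * x ^ (σ - 1) := by field_simp
      rw [e]; linarith
  have h1 := hm ⟨hρ.1, hρ.2.trans hρ0.2⟩ hρ0 hρ.2.le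
  simp only at h1
  have h2 : 0 ≤ K / σ * ρ ^ σ := by
    have := Real.rpow_nonneg hρ.1.le σ
    positivity
  linarith

/-- both signs -/
theorem XO_flux' {r K σ : ℝ} (hK : 0 ≤ K) (hσ : 0 < σ) (q q' : ℝ → ℝ)
    (h : ∀ ρ ∈ Ioo 0 r, HasDerivAt q (q' ρ) ρ) (hb : ∀ ρ ∈ Ioo 0 r, |q' ρ| ≤ K * ρ ^ (σ - 1))
    (hc : ∀ c > 0, ∀ ρ0 ∈ Ioo 0 r, ¬ (∀ ρ ∈ Ioo 0 ρ0, c ≤ q ρ))
    (hc' : ∀ c > 0, ∀ ρ0 ∈ Ioo 0 r, ¬ (∀ ρ ∈ Ioo 0 ρ0, c ≤ - q ρ)) :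
    ∀ ρ ∈ Ioo 0 r, |q ρ| ≤ K / σ * ρ ^ σ := by
  intro ρ hρ
  rw [abs_le']
  refine ⟨XO_flux hK hσ q q' h (fun x hx => (le_abs_self _).trans (hb x hx)) hc ρ hρ, ?_⟩
  exact XO_flux hK hσ (fun x => - q x) (fun x => - q' x) (fun x hx => (h x hx).neg)
    (fun x hx => (neg_le_abs _).trans (hb x hx)) hc' ρ hρ

/-- the limit at `0` -/
theorem XO_lim {r K σ : ℝ} (hr : 0 < r) (hσ : 0 < σ) (g g' : ℝ → ℝ)
    (h : ∀ ρ ∈ Ioo 0 r, HasDerivAt g (g' ρ) ρ) (hb : ∀ ρ ∈ Ioo 0 r, |g' ρ| ≤ K * ρ ^ (σ - 1)) :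
    ∃ A, ∀ ρ ∈ Ioo 0 r, |g ρ - A| ≤ K / σ * ρ ^ σ := by
  have h1 : MonotoneOn (fun ρ => K / σ * ρ ^ σ + g ρ) (Ioo 0 r) := by
    apply XO_mono (f' := fun ρ => K / σ * (σ * ρ ^ (σ - 1)) + g' ρ)
    · intro x hx
      exact ((Real.hasDerivAt_rpow_const (Or.inl hx.1.ne')).const_mul _).add (h x hx)
    · intro x hx
      have := (abs_le.mp (hb x hx)).1
      have e : K / σ * (σ * x ^ (σ - 1)) = K * x ^ (σ - 1) := by field_simp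
      rw [e]; linarith
  have h2 : MonotoneOn (fun ρ => K / σ * ρ ^ σ - g ρ) (Ioo 0 r) := by
    apply XO_mono (f' := fun ρ => K / σ * (σ * ρ ^ (σ - 1)) - g' ρ)
    · intro x hx
      exact ((Real.hasDerivAt_rpow_const (Or.inl hx.1.ne')).const_mul _).sub (h x hx)
    · intro x hx
      have := (abs_le.mp (hb x hx)).2
      have e : K / σ * (σ * x ^ (σ - 1)) = K * x ^ (σ - 1) := by field_simp
      rw [e]; linarith
  have hK : ∀ x ∈ Ioo 0 r, 0 ≤ K / σ * x ^ σ := by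
    intro x hx
    have h3 := (abs_nonneg _).trans (hb x hx)
    have h4 := Real.rpow_pos_of_pos hx.1 (σ - 1)
    have h5 : 0 ≤ K := nonneg_of_mul_nonneg_left h3 h4
    have := Real.rpow_nonneg hx.1.le σ
    positivity
  have key : ∀ x ∈ Ioo 0 r, ∀ y ∈ Ioo 0 r, g x - K / σ * x ^ σ ≤ K / σ * y ^ σ + g y := by
    intro x hx y hy
    rcases le_total x y with hxy | hxy
    · have := h1 hx hy hxy
      simp only at this
      have := hK x hx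
      linarith
    · have := h2 hy hx hxy
      simp only at this
      have := hK y hy
      linarith
  refine ⟨sInf ((fun ρ => K / σ * ρ ^ σ + g ρ) '' Ioo 0 r), fun ρ hρ => ?_⟩
  have hne : ((fun ρ => K / σ * ρ ^ σ + g ρ) '' Ioo 0 r).Nonempty := ⟨_, ρ, hρ, rfl⟩
  have hbb : ∀ x ∈ Ioo 0 r, g x - K / σ * x ^ σ ∈
      lowerBounds ((fun ρ => K / σ * ρ ^ σ + g ρ) '' Ioo 0 r) := by
    rintro x hx _ ⟨y, hy, rfl⟩
    exact key x hx y hy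
  have e1 : sInf ((fun ρ => K / σ * ρ ^ σ + g ρ) '' Ioo 0 r) ≤ K / σ * ρ ^ σ + g ρ :=
    csInf_le ⟨_, hbb ρ hρ⟩ ⟨ρ, hρ, rfl⟩
  have e2 : g ρ - K / σ * ρ ^ σ ≤ sInf ((fun ρ => K / σ * ρ ^ σ + g ρ) '' Ioo 0 r) :=
    le_csInf hne (fun b hb => hbb ρ hρ hb)
  rw [abs_le]
  constructor <;> linarith

/-- **XO.** ODE lemma, case `m = 0` -/
theorem ode_zero {r K M : ℝ} (hr : 0 < r) (hK : 0 ≤ K) (a a' a'' b : ℝ → ℝ)
    (h1 : ∀ ρ ∈ Ioo 0 r, HasDerivAt a (a' ρ) ρ) (h2 : ∀ ρ ∈ Ioo 0 r, HasDerivAt a' (a'' ρ) ρ)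
    (h3 : ∀ ρ ∈ Ioo 0 r, a'' ρ + a' ρ / ρ = b ρ) (hb : ∀ ρ ∈ Ioo 0 r, |b ρ| ≤ K)
    (ha : ∀ ρ ∈ Ioo 0 r, |a ρ| ≤ M) :
    ∃ A, ∀ ρ ∈ Ioo 0 r, |a ρ - A| ≤ K * ρ ^ 2 := by
  -- the contradiction
  have hneg : ∀ (s : ℝ), |s| = 1 → ∀ c > 0, ∀ ρ0 ∈ Ioo 0 r,
      ¬ (∀ ρ ∈ Ioo 0 ρ0, c ≤ s * (ρ * a' ρ)) := by
    intro s hs c hc ρ0 hρ0 hall
    have hm : MonotoneOn (fun ρ => s * a ρ - c * Real.log ρ) (Ioo 0 ρ0) := by
      apply XO_mono (f' := fun ρ => s * a' ρ - c * ρ⁻¹)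
      · intro x hx
        exact ((h1 x ⟨hx.1, hx.2.trans hρ0.2⟩).const_mul _).sub
          ((Real.hasDerivAt_log hx.1.ne').const_mul _)
      · intro x hx
        have h4 := hall x hx
        have h5 : s * a' x - c * x⁻¹ = (s * (x * a' x) - c) * x⁻¹ := by
          field_simp [hx.1.ne']
        rw [h5]
        exact mul_nonneg (by linarith) (inv_nonneg.mpr hx.1.le)
    set ρ2 := ρ0 / 2 with hρ2
    have hρ2m : ρ2 ∈ Ioo 0 ρ0 := ⟨by have := hρ0.1; positivity, by have := hρ0.1; rw [hρ2]; linarith⟩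
    have hM : 0 ≤ M := (abs_nonneg _).trans (ha ρ0 hρ0)
    set C := s * a ρ2 - c * Real.log ρ2 with hC
    -- choose rho small
    set ρ := min ρ2 (Real.exp (-(M + C + 1) / c)) with hρ
    have hρpos : 0 < ρ := lt_min hρ2m.1 (Real.exp_pos _)
    have hρm : ρ ∈ Ioo 0 ρ0 := ⟨hρpos, (min_le_left _ _).trans_lt hρ2m.2⟩
    have h6 := hm hρm hρ2m (min_le_left _ _)
    simp only at h6
    have h7 : Real.log ρ ≤ -(M + C + 1) / c := by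
      rw [Real.log_le_iff_le_exp hρpos]; exact min_le_right _ _
    have h8 : c * Real.log ρ ≤ -(M + C + 1) := by
      calc c * Real.log ρ ≤ c * (-(M + C + 1) / c) := mul_le_mul_of_nonneg_left h7 hc.le
        _ = -(M + C + 1) := by field_simp
    have h9 : -M ≤ s * a ρ := by
      have := ha ρ ⟨hρpos, hρm.2.trans hρ0.2⟩
      have h10 : |s * a ρ| ≤ M := by rw [abs_mul, hs, one_mul]; exact this
      exact (abs_le.mp h10).1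
    linarith
  have hflux := XO_flux' (r := r) (K := K) (σ := 2) hK (by norm_num) (fun ρ => ρ * a' ρ)
    (fun ρ => 1 * a' ρ + ρ * a'' ρ) (fun x hx => (hasDerivAt_id x).mul (h2 x hx))
    (fun x hx => by
      have e : 1 * a' x + x * a'' x = x * b x := by
        rw [← h3 x hx]
        have := hx.1.ne'
        field_simp
        ring
      rw [e, abs_mul, abs_of_pos hx.1]
      have h4 : (x : ℝ) ^ ((2 : ℝ) - 1) = x := by norm_num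
      rw [h4, mul_comm]
      exact mul_le_mul_of_nonneg_right (hb x hx) hx.1.le)
    (fun c hc ρ0 hρ0 hall => hneg 1 (by simp) c hc ρ0 hρ0 (by simpa using hall))
    (fun c hc ρ0 hρ0 hall => hneg (-1) (by simp) c hc ρ0 hρ0 (by simpa using hall))
  obtain ⟨A, hA⟩ := XO_lim (r := r) (K := K / 2) (σ := 2) hr (by norm_num) a a' h1 (fun x hx => by
    have h4 := hflux x hx
    rw [abs_mul, abs_of_pos hx.1] at h4
    have h5 : (x : ℝ) ^ ((2 : ℝ) - 1) = x := by norm_num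
    have h6 : (x : ℝ) ^ (2 : ℝ) = x * x := by
      rw [Real.rpow_two]; ring
    rw [h6] at h4
    rw [h5]
    have h7 : x * |a' x| ≤ x * (K / 2 * x) := by linarith
    exact le_of_mul_le_mul_left h7 hx.1)
  refine ⟨A, fun ρ hρ => (hA ρ hρ).trans ?_⟩
  rw [Real.rpow_two]
  have : 0 ≤ ρ ^ 2 := sq_nonneg _
  nlinarith

/-- the common part of `ode_large` and `ode_small` -/
theorem XO_main {r K M τ μ : ℝ} (hK : 0 ≤ K) (hμ0 : 0 < μ) (hσ : 0 < μ + 2 + τ)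
    (a a' a'' b : ℝ → ℝ)
    (h1 : ∀ ρ ∈ Ioo 0 r, HasDerivAt a (a' ρ) ρ) (h2 : ∀ ρ ∈ Ioo 0 r, HasDerivAt a' (a'' ρ) ρ)
    (h3 : ∀ ρ ∈ Ioo 0 r, a'' ρ + a' ρ / ρ - μ ^ 2 * a ρ / ρ ^ 2 = b ρ)
    (hb : ∀ ρ ∈ Ioo 0 r, |b ρ| ≤ K * ρ ^ τ)
    (ha : ∀ ρ ∈ Ioo 0 r, |a ρ| ≤ M) :
    (∀ ρ ∈ Ioo 0 r, HasDerivAt (fun ρ => ρ ^ (-μ) * a ρ)
      (-μ * ρ ^ (-μ - 1) * a ρ + ρ ^ (-μ) * a' ρ) ρ) ∧
    ∀ ρ ∈ Ioo 0 r, |-μ * ρ ^ (-μ - 1) * a ρ + ρ ^ (-μ) * a' ρ| ≤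
      K / (μ + 2 + τ) * ρ ^ (2 + τ - μ - 1) := by
  have hG : ∀ ρ ∈ Ioo 0 r, HasDerivAt (fun ρ => ρ ^ (-μ) * a ρ)
      (-μ * ρ ^ (-μ - 1) * a ρ + ρ ^ (-μ) * a' ρ) ρ := fun x hx =>
    (Real.hasDerivAt_rpow_const (Or.inl hx.1.ne')).mul (h1 x hx)
  refine ⟨hG, ?_⟩
  -- q = rho ^ (2 mu + 1) * g'
  set q : ℝ → ℝ := fun ρ => ρ ^ (μ + 1) * a' ρ - μ * (ρ ^ μ * a ρ) with hq
  have hqg : ∀ ρ, 0 < ρ → -μ * ρ ^ (-μ - 1) * a ρ + ρ ^ (-μ) * a' ρ = ρ ^ (-2 * μ - 1) * q ρ := by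
    intro ρ hρ
    simp only [hq]
    rw [mul_sub, ← mul_assoc, ← Real.rpow_add hρ]
    have e1 : ρ ^ (-2 * μ - 1) * (μ * (ρ ^ μ * a ρ)) = μ * (ρ ^ (-2 * μ - 1) * ρ ^ μ) * a ρ := by ring
    rw [e1, ← Real.rpow_add hρ]
    have e2 : -2 * μ - 1 + (μ + 1) = -μ := by ring
    have e3 : -2 * μ - 1 + μ = -μ - 1 := by ring
    rw [e2, e3]; ring
  have hqd : ∀ ρ ∈ Ioo 0 r, HasDerivAt q (ρ ^ (μ + 1) * b ρ) ρ := by
    intro x hx
    have d1 : HasDerivAt (fun ρ : ℝ => ρ ^ (μ + 1) * a' ρ)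
        ((μ + 1) * x ^ (μ + 1 - 1) * a' x + x ^ (μ + 1) * a'' x) x :=
      (Real.hasDerivAt_rpow_const (Or.inl hx.1.ne')).mul (h2 x hx)
    have d2 : HasDerivAt (fun ρ : ℝ => μ * (ρ ^ μ * a ρ))
        (μ * (μ * x ^ (μ - 1) * a x + x ^ μ * a' x)) x :=
      ((Real.hasDerivAt_rpow_const (Or.inl hx.1.ne')).mul (h1 x hx)).const_mul μ
    refine (d1.sub d2).congr_deriv ?_
    rw [← h3 x hx]
    have e1 : x ^ (μ + 1) = x ^ (μ - 1) * x ^ 2 := by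
      rw [← Real.rpow_natCast, ← Real.rpow_add hx.1]; congr 1; push_cast; ring
    have e2 : x ^ μ = x ^ (μ - 1) * x := by
      nth_rewrite 3 [← Real.rpow_one x]
      rw [← Real.rpow_add hx.1]; congr 1; ring
    have e3 : μ + 1 - 1 = μ := by ring
    rw [e3, e1, e2]
    have := hx.1.ne'
    field_simp
    ring
  have hneg : ∀ (s : ℝ), |s| = 1 → ∀ c > 0, ∀ ρ0 ∈ Ioo 0 r,
      ¬ (∀ ρ ∈ Ioo 0 ρ0, c ≤ s * q ρ) := by
    intro s hs c hc ρ0 hρ0 hall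
    have hm : MonotoneOn (fun ρ => s * (ρ ^ (-μ) * a ρ) + c / (2 * μ) * ρ ^ (-2 * μ))
        (Ioo 0 ρ0) := by
      apply XO_mono (f' := fun ρ => s * (-μ * ρ ^ (-μ - 1) * a ρ + ρ ^ (-μ) * a' ρ) +
        c / (2 * μ) * (-2 * μ * ρ ^ (-2 * μ - 1)))
      · intro x hx
        exact ((hG x ⟨hx.1, hx.2.trans hρ0.2⟩).const_mul _).add
          ((Real.hasDerivAt_rpow_const (Or.inl hx.1.ne')).const_mul _)
      · intro x hx
        have h4 := hall x hx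
        rw [hqg x hx.1]
        have h5 : s * (x ^ (-2 * μ - 1) * q x) + c / (2 * μ) * (-2 * μ * x ^ (-2 * μ - 1)) =
            (s * q x - c) * x ^ (-2 * μ - 1) := by
          field_simp
          ring
        rw [h5]
        exact mul_nonneg (by linarith) (Real.rpow_nonneg hx.1.le _)
    set ρ2 := ρ0 / 2 with hρ2
    have hρ2m : ρ2 ∈ Ioo 0 ρ0 := ⟨by have := hρ0.1; positivity, by have := hρ0.1; rw [hρ2]; linarith⟩
    have hM : 0 ≤ M := (abs_nonneg _).trans (ha ρ0 hρ0)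
    set C := s * (ρ2 ^ (-μ) * a ρ2) + c / (2 * μ) * ρ2 ^ (-2 * μ) with hC
    set Y := 2 * μ / c * (M + |C| + 1) + 1 with hY
    have hYpos : 1 ≤ Y := by rw [hY]; have : 0 ≤ 2 * μ / c * (M + |C| + 1) := by positivity
                             linarith
    set ρ := min ρ2 (Y ^ (-(1 / μ))) with hρ
    have hρpos : 0 < ρ := lt_min hρ2m.1 (Real.rpow_pos_of_pos (by linarith) _)
    have hρm : ρ ∈ Ioo 0 ρ0 := ⟨hρpos, (min_le_left _ _).trans_lt hρ2m.2⟩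
    have h6 := hm hρm hρ2m (min_le_left _ _)
    simp only at h6
    set y := ρ ^ (-μ) with hy
    have hyY : Y ≤ y := by
      have h7 : (Y ^ (-(1 / μ))) ^ (-μ) ≤ ρ ^ (-μ) := by
        apply Real.rpow_le_rpow_of_nonpos hρpos (min_le_right _ _) (by linarith)
      rw [← Real.rpow_mul (by linarith)] at h7
      have h8 : -(1 / μ) * -μ = 1 := by field_simp
      rw [h8, Real.rpow_one] at h7
      exact h7
    have hy2 : ρ ^ (-2 * μ) = y * y := by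
      rw [hy, ← Real.rpow_add hρpos]; congr 1; ring
    have h9 : -M ≤ s * a ρ := by
      have := ha ρ ⟨hρpos, hρm.2.trans hρ0.2⟩
      have h10 : |s * a ρ| ≤ M := by rw [abs_mul, hs, one_mul]; exact this
      exact (abs_le.mp h10).1
    rw [hy2] at h6
    have hypos : 0 < y := by linarith
    have h11 : s * (y * a ρ) + c / (2 * μ) * (y * y) ≤ C := h6
    have h12 : -(M * y) ≤ s * (y * a ρ) := by
      have := mul_le_mul_of_nonneg_left h9 hypos.le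
      nlinarith
    have h13 : c / (2 * μ) * (y * y) ≥ (M + |C| + 1) * y := by
      have h14 : c / (2 * μ) * y ≥ M + |C| + 1 := by
        have : c / (2 * μ) * Y ≤ c / (2 * μ) * y :=
          mul_le_mul_of_nonneg_left hyY (by positivity)
        have e : c / (2 * μ) * Y = (M + |C| + 1) + c / (2 * μ) := by
          rw [hY]; field_simp
        have : 0 ≤ c / (2 * μ) := by positivity
        linarith
      have := mul_le_mul_of_nonneg_right h14 hypos.le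
      nlinarith
    have h15 : C ≤ |C| := le_abs_self C
    have h16 : |C| ≤ |C| * y := by nlinarith [abs_nonneg C]
    nlinarith
  have hflux := XO_flux' (r := r) (K := K) (σ := μ + 2 + τ) hK hσ q
    (fun ρ => ρ ^ (μ + 1) * b ρ) hqd
    (fun x hx => by
      rw [abs_mul, abs_of_pos (Real.rpow_pos_of_pos hx.1 _)]
      have h4 : x ^ (μ + 2 + τ - 1) = x ^ (μ + 1) * x ^ τ := by
        rw [← Real.rpow_add hx.1]; congr 1; ring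
      rw [h4]
      have := mul_le_mul_of_nonneg_left (hb x hx) (Real.rpow_pos_of_pos hx.1 (μ + 1)).le
      linarith)
    (fun c hc ρ0 hρ0 hall => hneg 1 (by simp) c hc ρ0 hρ0 (by simpa using hall))
    (fun c hc ρ0 hρ0 hall => hneg (-1) (by simp) c hc ρ0 hρ0 (by simpa using hall))
  intro ρ hρ
  rw [hqg ρ hρ.1, abs_mul, abs_of_pos (Real.rpow_pos_of_pos hρ.1 _)]
  have h4 := mul_le_mul_of_nonneg_left (hflux ρ hρ) (Real.rpow_pos_of_pos hρ.1 (-2 * μ - 1)).le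
  refine h4.trans (le_of_eq ?_)
  have e : ρ ^ (2 + τ - μ - 1) = ρ ^ (-2 * μ - 1) * ρ ^ (μ + 2 + τ) := by
    rw [← Real.rpow_add hρ.1]; congr 1; ring
  rw [e]; ring

/-- **XO.** ODE lemma, case `m > 2 + τ` -/
theorem ode_large {r K M τ μ : ℝ} (hr : 0 < r) (hK : 0 ≤ K) (hτ : -2 < τ) (hμ : 2 + τ < μ)
    (a a' a'' b : ℝ → ℝ)
    (h1 : ∀ ρ ∈ Ioo 0 r, HasDerivAt a (a' ρ) ρ) (h2 : ∀ ρ ∈ Ioo 0 r, HasDerivAt a' (a'' ρ) ρ)
    (h3 : ∀ ρ ∈ Ioo 0 r, a'' ρ + a' ρ / ρ - μ ^ 2 * a ρ / ρ ^ 2 = b ρ)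
    (hb : ∀ ρ ∈ Ioo 0 r, |b ρ| ≤ K * ρ ^ τ)
    (ha : ∀ ρ ∈ Ioo 0 r, |a ρ| ≤ M) :
    ∀ ρ1 ∈ Ioo 0 r, ∀ ρ ∈ Ioc 0 ρ1, |a ρ| ≤ (ρ / ρ1) ^ μ * M +
      K / ((μ - 2 - τ) * (μ + 2 + τ)) * ρ ^ (2 + τ) := by
  obtain ⟨hg, hg'⟩ := XO_main (r := r) (K := K) (M := M) (τ := τ) (μ := μ) hK (by linarith)
    (by linarith) a a' a'' b h1 h2 h3 hb ha
  intro ρ1 hρ1 ρ hρ
  have hρr : ρ ∈ Ioo 0 r := ⟨hρ.1, hρ.2.trans_lt hρ1.2⟩
  set c := K / ((μ - 2 - τ) * (μ + 2 + τ)) with hc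
  have hp1 : 0 < μ - 2 - τ := by linarith
  have hp2 : 0 < μ + 2 + τ := by linarith
  have hc0 : 0 ≤ c := by rw [hc]; positivity
  have key : ∀ s : ℝ, |s| = 1 → s * (ρ ^ (-μ) * a ρ) ≤ ρ1 ^ (-μ) * M + c * ρ ^ (2 + τ - μ) := by
    intro s hs
    have hm : MonotoneOn (fun ρ => - (c * ρ ^ (2 + τ - μ)) + s * (ρ ^ (-μ) * a ρ)) (Ioo 0 r) := by
      apply XO_mono (f' := fun ρ => - (c * ((2 + τ - μ) * ρ ^ (2 + τ - μ - 1))) +
        s * (-μ * ρ ^ (-μ - 1) * a ρ + ρ ^ (-μ) * a' ρ))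
      · intro x hx
        exact ((Real.hasDerivAt_rpow_const (Or.inl hx.1.ne')).const_mul _).neg.add
          ((hg x hx).const_mul _)
      · intro x hx
        have h4 := hg' x hx
        have h5 : |s * (-μ * x ^ (-μ - 1) * a x + x ^ (-μ) * a' x)| ≤
            K / (μ + 2 + τ) * x ^ (2 + τ - μ - 1) := by
          rw [abs_mul, hs, one_mul]; exact h4
        have h6 := (abs_le.mp h5).1
        have e : - (c * ((2 + τ - μ) * x ^ (2 + τ - μ - 1))) =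
            K / (μ + 2 + τ) * x ^ (2 + τ - μ - 1) := by
          rw [hc]
          field_simp
          ring
        rw [e]; linarith
    have h7 := hm hρr hρ1 hρ.2
    simp only at h7
    have h8 : s * (ρ1 ^ (-μ) * a ρ1) ≤ ρ1 ^ (-μ) * M := by
      have : s * a ρ1 ≤ M := by
        have : |s * a ρ1| ≤ M := by rw [abs_mul, hs, one_mul]; exact ha ρ1 hρ1
        exact (le_abs_self _).trans this
      have := mul_le_mul_of_nonneg_left this (Real.rpow_pos_of_pos hρ1.1 (-μ)).le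
      linarith
    have h9 : 0 ≤ c * ρ1 ^ (2 + τ - μ) := mul_nonneg hc0 (Real.rpow_nonneg hρ1.1.le _)
    linarith
  have hk1 := key 1 (by simp)
  have hk2 := key (-1) (by simp)
  have hμp : 0 < ρ ^ μ := Real.rpow_pos_of_pos hρ.1 _
  have e1 : ρ ^ μ * ρ ^ (-μ) = 1 := by
    rw [← Real.rpow_add hρ.1]; simp
  have e2 : ρ ^ μ * ρ ^ (2 + τ - μ) = ρ ^ (2 + τ) := by
    rw [← Real.rpow_add hρ.1]; congr 1; ring
  have e3 : ρ ^ μ * ρ1 ^ (-μ) = (ρ / ρ1) ^ μ := by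
    rw [Real.div_rpow hρ.1.le hρ1.1.le, Real.rpow_neg hρ1.1.le, div_eq_mul_inv]
  have e4 : ρ ^ μ * (ρ1 ^ (-μ) * M + c * ρ ^ (2 + τ - μ)) = (ρ / ρ1) ^ μ * M + c * ρ ^ (2 + τ) := by
    rw [mul_add, ← mul_assoc, e3, mul_left_comm, e2]
  rw [abs_le', ← e4]
  constructor
  · have := mul_le_mul_of_nonneg_left hk1 hμp.le
    have e5 : ρ ^ μ * (1 * (ρ ^ (-μ) * a ρ)) = a ρ := by
      rw [one_mul, ← mul_assoc, e1, one_mul]
    linarith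
  · have := mul_le_mul_of_nonneg_left hk2 hμp.le
    have e5 : ρ ^ μ * (-1 * (ρ ^ (-μ) * a ρ)) = - a ρ := by
      rw [neg_one_mul, mul_neg, ← mul_assoc, e1, one_mul]
    linarith

/-- **XO.** ODE lemma, case `0 < m < 2 + τ` -/
theorem ode_small {r K M τ μ : ℝ} (hr : 0 < r) (hK : 0 ≤ K) (hμ0 : 0 < μ) (hμ : μ < 2 + τ) :
    ∃ C, ∀ (a a' a'' b : ℝ → ℝ),
    (∀ ρ ∈ Ioo 0 r, HasDerivAt a (a' ρ) ρ) → (∀ ρ ∈ Ioo 0 r, HasDerivAt a' (a'' ρ) ρ) →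
    (∀ ρ ∈ Ioo 0 r, a'' ρ + a' ρ / ρ - μ ^ 2 * a ρ / ρ ^ 2 = b ρ) →
    (∀ ρ ∈ Ioo 0 r, |b ρ| ≤ K * ρ ^ τ) → (∀ ρ ∈ Ioo 0 r, |a ρ| ≤ M) →
    ∃ A, |A| ≤ C ∧ ∀ ρ ∈ Ioo 0 r, |a ρ - A * ρ ^ μ| ≤ C * ρ ^ (2 + τ) := by
  set c := K / (μ + 2 + τ) / (2 + τ - μ) with hc
  have hp1 : 0 < 2 + τ - μ := by linarith
  have hp2 : 0 < μ + 2 + τ := by linarith
  have hc0 : 0 ≤ c := by rw [hc]; positivity
  refine ⟨(r / 2) ^ (-μ) * |M| + c * (r / 2) ^ (2 + τ - μ) + c, ?_⟩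
  intro a a' a'' b h1 h2 h3 hb ha
  obtain ⟨hg, hg'⟩ := XO_main (r := r) (K := K) (M := M) (τ := τ) (μ := μ) hK hμ0
    (by linarith) a a' a'' b h1 h2 h3 hb ha
  obtain ⟨A, hA⟩ := XO_lim (r := r) (K := K / (μ + 2 + τ)) (σ := 2 + τ - μ) hr hp1
    (fun ρ => ρ ^ (-μ) * a ρ) _ hg hg'
  have hr2 : r / 2 ∈ Ioo 0 r := ⟨by positivity, by linarith⟩
  have hp3 : 0 < (r / 2) ^ (-μ) := Real.rpow_pos_of_pos hr2.1 _
  have hp4 : 0 < (r / 2) ^ (2 + τ - μ) := Real.rpow_pos_of_pos hr2.1 _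
  refine ⟨A, ?_, ?_⟩
  · have h4 := hA _ hr2
    have h5 : |(r / 2) ^ (-μ) * a (r / 2)| ≤ (r / 2) ^ (-μ) * |M| := by
      rw [abs_mul, abs_of_pos hp3]
      exact mul_le_mul_of_nonneg_left ((ha _ hr2).trans (le_abs_self M)) hp3.le
    have h6 : |A| ≤ |(r / 2) ^ (-μ) * a (r / 2)| + |(r / 2) ^ (-μ) * a (r / 2) - A| := by
      have : A = (r / 2) ^ (-μ) * a (r / 2) - ((r / 2) ^ (-μ) * a (r / 2) - A) := by ring
      nth_rewrite 1 [this]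
      exact abs_sub _ _
    linarith
  · intro ρ hρ
    have h4 := hA ρ hρ
    have hμp : 0 < ρ ^ μ := Real.rpow_pos_of_pos hρ.1 _
    have e1 : ρ ^ μ * ρ ^ (-μ) = 1 := by
      rw [← Real.rpow_add hρ.1]; simp
    have e2 : ρ ^ μ * ρ ^ (2 + τ - μ) = ρ ^ (2 + τ) := by
      rw [← Real.rpow_add hρ.1]; congr 1; ring
    have e3 : a ρ - A * ρ ^ μ = ρ ^ μ * (ρ ^ (-μ) * a ρ - A) := by
      rw [mul_sub, ← mul_assoc, e1]; ring
    rw [e3, abs_mul, abs_of_pos hμp]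
    have h5 := mul_le_mul_of_nonneg_left h4 hμp.le
    have h6 : ρ ^ μ * (c * ρ ^ (2 + τ - μ)) = c * ρ ^ (2 + τ) := by
      rw [mul_left_comm, e2]
    rw [← hc] at h5
    rw [h6] at h5
    refine h5.trans ?_
    have h7 : 0 < ρ ^ (2 + τ) := Real.rpow_pos_of_pos hρ.1 _
    have h8 : 0 ≤ (r / 2) ^ (-μ) * |M| + c * (r / 2) ^ (2 + τ - μ) := by positivity
    nlinarith

end Pool.Agent.Lib_helper59.Robin
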